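import Mathlib
import Pool.Agent.H660R3.LorDefs
import Pool.Agent.H660R4.Defs
import Pool.Agent.H660R4.Final

/-!
# Causal completeness of r-th symmetric pseudo-Riemannian manifolds

Definitions are in `Pool.Agent.H660R4.Defs` (and `Pool.Agent.H660R3.LorDefs`).

Idea of the proof. Work on the frame bundle with the standard horizontal vector fields `B(y)`, `y ∈ ℝⁿ`.
If `∇^r R = 0`, the components of `R, ∇R, …, ∇^{r-1} R` in a frame that is parallel along a geodesic are
polynomials in the parameter, so they converge at a finite end of a geodesic `γ` with direction `c₀`. Choose a
direction `y₀` of the complete type. From a point of `γ` close to its end go back along `-y₀` for a short fixed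
time `τ` to a frame `q`. The frames reached from `q` by moving first by `λ` along a null direction `n₁` (only
needed for null `y₀`) and then for time `τ` along a direction `y` of the complete type depend on `(λ, y)`
through a Jacobi equation whose coefficients are the components of the curvature, that is, explicit functions
of `(λ, y)` and of the data at `q`. For small `τ` the Jacobi operator is invertible, so one can solve an
ordinary differential equation for `(λ, y, h)`, `h` a change of frame, that makes the end frame move along
`B(c₀)`; the time of existence of its solution depends only on the data. So `γ` can be extended by a uniform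
amount, and is defined on all of `ℝ`.
-/
open scoped ContDiff Manifold
open Pool.Agent.H660R4

namespace Pool.Agent.Results.MP_611141_gt.CausalCompleteness

/-- For an `r`-th symmetric (`∇^r R = 0`, `r ≥ 1`) pseudo-Riemannian manifold of indefinite signature,
timelike, lightlike and spacelike completeness are equivalent, and each of them is equivalent to geodesic
completeness. -/
theorem result {n r : ℕ} {M : Type*} [TopologicalSpace M] [T2Space M]
    [ChartedSpace (EuclideanSpace ℝ (Fin n)) M] [IsManifold (𝓡 n) ∞ M] (g : PseudoMetric n M)
    (hind : g.Indefinite) (hr : 1 ≤ r) (hsym : IsSymmetricOrder g r) :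
    (TimelikeComplete g ↔ LightlikeComplete g) ∧ (LightlikeComplete g ↔ SpacelikeComplete g) ∧
      (TimelikeComplete g ↔ GeodesicallyComplete g) := by
  obtain ⟨h1, h2, h3⟩ := main g hind hr hsym
  have key : ∀ P : ℝ → Prop, GeodesicallyComplete g → CompleteFor g P :=
    fun P h p v hv _ => h p v hv trivial
  exact ⟨⟨fun h => key _ (h1 h), fun h => key _ (h2 h)⟩,
    ⟨fun h => key _ (h2 h), fun h => key _ (h3 h)⟩, ⟨h1, fun h => key _ h⟩⟩

end Pool.Agent.Results.MP_611141_gt.CausalCompleteness
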